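import Pool.Agent.R973.Cp.Model
import Pool.Agent.R973.Cp.Final

/-!
# The slope of the copolymer critical curve is never `1/(1+α)`
-/

set_option autoImplicit false

open MeasureTheory ProbabilityTheory Filter Topology

namespace Pool.Agent.Results.MP_65efe8_pr.StrictSlope

open Pool.Agent.R973.Copolymer

/-- For every `α ∈ (0,1)`, every gap law with exponent `α` and every charge law (mean `0`,
variance `1`, all exponential moments): the free energy exists as a limit for `λ > 0`, `h ≥ 0`, it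
is positive exactly for `h < h_c(λ)`, and there is `δ > 0` such that
`h_c(λ)/λ ≥ 1/(1+α) + δ` for all small `λ > 0`. In particular the slope of the critical curve at
the origin is larger than `1/(1+α)`. -/
theorem result (α : ℝ) (hα0 : 0 < α) (hα1 : α < 1) (κ : PMF ℕ) (hκ : IsGapLaw κ α)
    (ν : Measure ℝ) [IsProbabilityMeasure ν] (hν : IsChargeLaw ν) :
    (∀ lam : ℝ, 0 < lam →
      (∀ h : ℝ, 0 ≤ h → Tendsto (feN κ ν lam h) atTop (𝓝 (freeEnergy κ ν lam h))) ∧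
      0 < hcNonneg κ ν lam ∧
      ∀ h : ℝ, 0 ≤ h → (0 < freeEnergy κ ν lam h ↔ h < hcNonneg κ ν lam)) ∧
    (∃ δ : ℝ, 0 < δ ∧ ∀ᶠ lam in 𝓝[>] (0 : ℝ), 1 / (1 + α) + δ ≤ hcNonneg κ ν lam / lam) ∧
    ∀ m : ℝ, Tendsto (fun lam => hcNonneg κ ν lam / lam) (𝓝[>] 0) (𝓝 m) → 1 / (1 + α) < m := by
  have key : ∃ δ : ℝ, 0 < δ ∧
      ∀ᶠ lam in 𝓝[>] (0 : ℝ), 1 / (1 + α) + δ ≤ hcNonneg κ ν lam / lam := by
    obtain ⟨δ, hδ, h⟩ := slope_lower hα0 hα1 hκ hν
    refine ⟨δ, hδ, ?_⟩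
    filter_upwards [h, self_mem_nhdsWithin] with lam h1 h2
    rw [(hc_spec hα0 hκ hν h2).2.1]
    exact h1
  refine ⟨fun lam hlam => ?_, key, fun m hm => ?_⟩
  · obtain ⟨h1, h2, h3⟩ := hc_spec hα0 hκ hν hlam
    rw [h2]
    exact ⟨(exists_hc hα0 hκ hν hlam).1, h1, h3⟩
  · obtain ⟨δ, hδ, h⟩ := key
    have := ge_of_tendsto hm h
    linarith

end Pool.Agent.Results.MP_65efe8_pr.StrictSlope
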